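import Pool.Agent.Helper68.Fam.Goals

/-!
# Project FAM: packet NOT1

The graph `YG ⊤ F` on `n + 5` points is not `n`-apex.
-/

namespace NApexGraphs.Fam.Helper8

open SimpleGraph NApexGraphs NApexGraphs.Dom NApexGraphs.Fam

theorem gNOT1 (hT : Goals.TRANSFER) (hB : Goals.BASE1) : Goals.NOT1 := by
  classical
  intro n F hF
  rintro ⟨X, hX, hpl⟩
  rw [← pl_iff] at hpl
  revert hpl
  refine hT (Fin (n + 5)) ⊤ F X (fun T hTF => (hF.card T hTF).le) ?_
  let S : Finset (Finset (Fin (n + 5))) :=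
    F.filter fun T => ∃ h : T ∈ F, (Sum.inr ⟨T, h⟩ : Fin (n + 5) ⊕ {T // T ∈ F}) ∈ X
  let P : Finset (Fin (n + 5)) :=
    Finset.univ.filter fun v => (Sum.inl v : Fin (n + 5) ⊕ {T // T ∈ F}) ∉ X
  have hP : (P : Set (Fin (n + 5))) =
      {v | (Sum.inl v : Fin (n + 5) ⊕ {T // T ∈ F}) ∉ X} := by
    ext v
    simp [P]
  rw [← hP]
  have memS : ∀ T, T ∈ S ↔
      ∃ h : T ∈ F, (Sum.inr ⟨T, h⟩ : Fin (n + 5) ⊕ {T // T ∈ F}) ∈ X := by
    intro T
    simp only [S, Finset.mem_filter]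
    constructor
    · rintro ⟨_, h⟩; exact h
    · rintro ⟨h, h'⟩; exact ⟨h, h, h'⟩
  refine hB (Fin (n + 5)) _ P S ?_ ?_ ?_ ?_
  · intro T h
    obtain ⟨h1, _⟩ := (memS T).1 h
    exact (hF.card T h1).le
  · intro T h T' h' hne
    obtain ⟨h1, _⟩ := (memS T).1 h
    obtain ⟨h2, _⟩ := (memS T').1 h'
    exact hF.pair T h1 T' h2 hne
  · -- counting
    let Pc : Finset (Fin (n + 5)) :=
      Finset.univ.filter fun v => ¬ ((Sum.inl v : Fin (n + 5) ⊕ {T // T ∈ F}) ∉ X)
    have h1 : P.card + Pc.card = n + 5 := by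
      have := Finset.card_filter_add_card_filter_not (s := (Finset.univ : Finset (Fin (n + 5))))
        (fun v => (Sum.inl v : Fin (n + 5) ⊕ {T // T ∈ F}) ∉ X)
      simpa [P, Pc] using this
    let f : Finset (Fin (n + 5)) → Fin (n + 5) ⊕ {T // T ∈ F} :=
      fun T => if h : T ∈ F then Sum.inr ⟨T, h⟩ else Sum.inl 0
    have hf : ∀ T (h : T ∈ F), f T = Sum.inr ⟨T, h⟩ := fun T h => dif_pos h
    have h2 : (Pc.image Sum.inl ∪ S.image f) ⊆ X := by
      intro z hz
      rw [Finset.mem_union, Finset.mem_image, Finset.mem_image] at hz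
      rcases hz with ⟨v, hv, rfl⟩ | ⟨T, hT', rfl⟩
      · simp only [Pc, Finset.mem_filter, Finset.mem_univ, true_and, not_not] at hv
        exact hv
      · obtain ⟨h, h'⟩ := (memS T).1 hT'
        rw [hf T h]
        exact h'
    have h3 : Disjoint (Pc.image (Sum.inl : Fin (n + 5) → Fin (n + 5) ⊕ {T // T ∈ F}))
        (S.image f) := by
      rw [Finset.disjoint_left]
      intro z hz hz'
      rw [Finset.mem_image] at hz hz'
      obtain ⟨v, _, rfl⟩ := hz
      obtain ⟨T, hT', e⟩ := hz'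
      obtain ⟨h, _⟩ := (memS T).1 hT'
      rw [hf T h] at e
      exact absurd e (by simp)
    have h4 : (Pc.image (Sum.inl : Fin (n + 5) → Fin (n + 5) ⊕ {T // T ∈ F})).card = Pc.card :=
      Finset.card_image_of_injective _ Sum.inl_injective
    have h5 : (S.image f).card = S.card := by
      apply Finset.card_image_of_injOn
      intro T hT' T' hT'' e
      obtain ⟨h, _⟩ := (memS T).1 hT'
      obtain ⟨h', _⟩ := (memS T').1 hT''
      rw [hf T h, hf T' h'] at e
      exact congrArg Subtype.val (Sum.inr_injective e)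
    have h6 := Finset.card_le_card h2
    rw [Finset.card_union_of_disjoint h3, h4, h5] at h6
    omega
  · intro x _ y _ hxy h
    refine ⟨hxy, ?_⟩
    rintro T ⟨h1, h2⟩ h3
    exact h T ((memS T).2 ⟨h1, h2⟩) h3

end NApexGraphs.Fam.Helper8
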